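import Pool.Agent.Lib.MP_60cbcc_al.H8WFW

namespace Pool.Agent.Variants.MP_60cbcc_al.DenseSubgroupEnds

open Pool.Agent.Lib.MP_60cbcc_al.H8W
open scoped Pointwise

/-- In a uniform lattice of a product of two compactly generated locally compact groups, the coset
space of a subgroup with dense projection to a factor without continuous real characters and
cocompact projection to the other factor has at most one end. -/
theorem result (G H : Type) [Group G] [TopologicalSpace G] [IsTopologicalGroup G] [T2Space G]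
    [LocallyCompactSpace G] [SecondCountableTopology G]
    [Group H] [TopologicalSpace H] [IsTopologicalGroup H] [T2Space H]
    [LocallyCompactSpace H] [SecondCountableTopology H]
    (hS : ∃ S : Set G, IsCompact S ∧ Subgroup.closure S = ⊤)
    (hT : ∃ T : Set H, IsCompact T ∧ Subgroup.closure T = ⊤)
    (hG : ∀ χ : G →* Multiplicative ℝ, Continuous χ → χ = 1)
    (Γ : Subgroup (G × H)) [DiscreteTopology Γ]
    (hΓ : ∃ C : Set (G × H), IsCompact C ∧ ∀ g, ∃ γ ∈ Γ, γ * g ∈ C)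
    (Λ : Subgroup Γ) (h₁ : DenseRange fun γ : Λ => γ.1.1.1)
    (h₂ : ∃ K : Set H, IsCompact K ∧ ∀ h, ∃ γ : Λ, γ.1.1.2 * h ∈ K)
    (A : Set (Γ ⧸ Λ)) (hA : ∀ γ : Γ, (γ • A \ A).Finite) : A.Finite ∨ Aᶜ.Finite := by
  borelize G H
  have h : ∀ γ : Λ, γ.1.1 ∈ St Γ ((1 : Γ) : Γ ⧸ Λ) := fun γ => mem_St.2 (by simp [QuotientGroup.eq])
  obtain ⟨C, hC, hC'⟩ := coc_inv hΓ
  obtain ⟨K, hK, hK'⟩ := h₂
  by_contra! h3
  refine dense_end (y := ((1 : Γ) : Γ ⧸ Λ)) hS hT hG hC hC' (com_of hA)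
    (h₁.mono (by rintro _ ⟨γ, rfl⟩; exact ⟨_, h γ, rfl⟩)) ⟨K⁻¹, hK.inv, fun s => ?_⟩
    (h3.1.mono fun x hx => ⟨(MulAction.orbit_eq_univ Γ _).ge trivial, hx⟩)
    (h3.2.mono fun x hx => ⟨(MulAction.orbit_eq_univ Γ _).ge trivial, hx⟩)
  obtain ⟨γ, hγ⟩ := hK' s⁻¹
  exact ⟨_, h γ⁻¹, by simpa using hγ⟩

end Pool.Agent.Variants.MP_60cbcc_al.DenseSubgroupEnds
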