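import Pool.Agent.Lib.MP_60cbcc_al.H8WLocal
import Pool.Agent.Lib.MP_60cbcc_al.H8Int

namespace Pool.Agent.Variants.MP_60cbcc_al.IntegrableCocycle

open MeasureTheory Pool.Agent.Lib.MP_60cbcc_al
open scoped MatrixGroups

/-- A measure preserving action of a uniform irreducible lattice in `SL(2, k) × SL(2, l)`, for
local fields `k` and `l`, by integrable powers of one measure preserving transformation has finite
orbits. -/
theorem result (k l : Type) [NontriviallyNormedField k] [ProperSpace k]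
    [NontriviallyNormedField l] [ProperSpace l]
    (Γ : Subgroup (SL(2, k) × SL(2, l))) [DiscreteTopology Γ]
    (hΓ : ∃ C : Set (SL(2, k) × SL(2, l)), IsCompact C ∧ ∀ g, ∃ γ ∈ Γ, γ * g ∈ C)
    (h₁ : DenseRange fun γ : Γ => γ.1.1) (h₂ : DenseRange fun γ : Γ => γ.1.2)
    (X : Type) [MeasurableSpace X] [StandardBorelSpace X] (μ : Measure X) [IsProbabilityMeasure μ]
    [MulAction Γ X] (hμ : ∀ γ : Γ, MeasurePreserving (fun x : X => γ • x) μ μ)
    (T : X ≃ᵐ X) (hT : MeasurePreserving T μ μ) (c : Γ → X → ℤ)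
    (hc : ∀ γ x, γ • x = (T.toEquiv ^ c γ x) x) (hi : ∀ γ, Integrable (fun x => (c γ x : ℝ)) μ) :
    ∀ᵐ x ∂μ, (MulAction.orbit Γ x).Finite :=
  haveI := H8.lat_count Γ
  H8.fin_orbits hμ (H8W.ends_ae' Γ hΓ h₁ h₂ hμ) T hT c hc hi

end Pool.Agent.Variants.MP_60cbcc_al.IntegrableCocycle
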