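import Pool.Agent.Lib.MP_60cbcc_al.H8WLie

namespace Pool.Agent.Variants.MP_60cbcc_al.OpenTransfixing

open Pool.Agent.Lib.MP_60cbcc_al.H8W
open scoped Pointwise

/-- For a uniform irreducible lattice in the product of a simple real linear Lie group and a
non-amenable group `H`, every commensurated subset is, up to a finite set, invariant under the
elements that project into some open subgroup of `H`. -/
theorem result (n : ℕ) (G : Subgroup (GL (Fin n) ℝ)) (hG : IsNoncompactSimple G)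
    (H : Type) [Group H] [TopologicalSpace H] [IsTopologicalGroup H] [T2Space H]
    [LocallyCompactSpace H] [SecondCountableTopology H]
    (hT : ∃ T : Set H, IsCompact T ∧ Subgroup.closure T = ⊤)
    (hH : ¬ ∃ m : BoundedContinuousFunction H ℝ →ₗ[ℝ] ℝ, m 1 = 1 ∧
      (∀ f : BoundedContinuousFunction H ℝ, (∀ x, 0 ≤ f x) → 0 ≤ m f) ∧
      ∀ (g : H) (f f' : BoundedContinuousFunction H ℝ), (∀ x, f' x = f (g * x)) → m f' = m f)
    (Γ : Subgroup (G × H)) [DiscreteTopology Γ]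
    (hΓ : ∃ C : Set (G × H), IsCompact C ∧ ∀ g, ∃ γ ∈ Γ, γ * g ∈ C)
    (h₁ : DenseRange fun γ : Γ => γ.1.1) (h₂ : DenseRange fun γ : Γ => γ.1.2)
    (hi : Function.Injective fun γ : Γ => γ.1.1)
    (X : Type) [MulAction Γ X] (A : Set X) (hA : ∀ γ : Γ, (γ • A \ A).Finite) :
    ∃ (U : Subgroup H) (B : Set X), IsOpen (U : Set H) ∧ (∀ γ : Γ, γ.1.2 ∈ U → γ • B = B) ∧
      (symmDiff A B).Finite := by
  have := sc_sub G
  have := hG.lc
  have := hG.conn
  obtain ⟨C, hC, h⟩ := coc_inv hΓ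
  exact transfix hG.nice hT (drift_bot hH)
    (fun x hx => congrArg (fun γ : Γ => γ.1.2) (hi (a₁ := ⟨_, hx⟩) (a₂ := 1) rfl))
    (h₁.mono (by rintro _ ⟨γ, rfl⟩; exact ⟨_, γ.2, rfl⟩))
    (h₂.mono (by rintro _ ⟨γ, rfl⟩; exact ⟨_, γ.2, rfl⟩)) hC h hA

end Pool.Agent.Variants.MP_60cbcc_al.OpenTransfixing
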