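import Pool.Agent.Lib.MP_60cbcc_al.H3ZMain
import Pool.Agent.Lib.MP_60cbcc_al.H3ZExReal
import Pool.Agent.Lib.MP_60cbcc_al.H3ZExTree
import Pool.Agent.Lib.MP_60cbcc_al.H3ZExHigh
import Pool.Agent.Lib.MP_60cbcc_al.H3ZExT
import Pool.Agent.Lib.MP_60cbcc_al.H3ZExTR

namespace Pool.Agent.Variants.MP_60cbcc_al.StuckZimmerV2

open MeasureTheory Pool.Agent.Lib.MP_60cbcc_al.H3Z

/-- Stabiliser rigidity for irreducible lattices of higher rank. -/
theorem result (ι : Type) [Finite ι] (G : ι → Type) [∀ i, Group (G i)]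
    [∀ i, TopologicalSpace (G i)] [∀ i, IsTopologicalGroup (G i)] [∀ i, LocallyCompactSpace (G i)]
    [∀ i, SecondCountableTopology (G i)] [∀ i, T2Space (G i)] [∀ i, MeasurableSpace (G i)]
    [∀ i, BorelSpace (G i)] (hG : ∀ i, IsFactor (G i)) (hr : Nontrivial ι ∨ ∃ i, IsHigh (G i))
    (Γ : Subgroup (∀ i, G i)) (hΓ : IsLattice Γ)
    (hd : ∀ i, (Γ.map (MonoidHom.pi fun k : {k // k ≠ i} =>
      Pi.evalMonoidHom G k.1)).topologicalClosure.FiniteIndex)
    (hZ : Subgroup.center Γ = ⊥)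
    (X : Type) [MeasurableSpace X] [StandardBorelSpace X] [MulAction Γ X]
    [MeasurableConstSMul Γ X] (μ : Measure X) [IsProbabilityMeasure μ] [ErgodicSMul Γ X μ] :
    (∃ F : Set X, F.Finite ∧ μ Fᶜ = 0) ∨ ∀ᵐ x ∂μ, MulAction.stabilizer Γ x = ⊥ :=
  main hG hr Γ hΓ hd hZ μ

open scoped MatrixGroups

/-- Example: the real special linear groups. -/
theorem example_real (n : ℕ) : IsReal SL(n + 2, ℝ) :=
  sl_isReal n

/-- Example: `SL(2, k)` over a non-archimedean local field. -/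
theorem example_tree (k : Type) [NontriviallyNormedField k] [IsUltrametricDist k]
    [LocallyCompactSpace k] : IsTreeGroup SL(2, k) :=
  sl2_isTreeGroup k

/-- Example: `SL(n, k)`, `n ≥ 3`, over a non-archimedean local field. -/
theorem example_high (k : Type) [NontriviallyNormedField k] [IsUltrametricDist k]
    [LocallyCompactSpace k] (n : ℕ) [MeasurableSpace SL(n + 3, k)] [BorelSpace SL(n + 3, k)] :
    IsHigh SL(n + 3, k) :=
  sl_isHigh_of k n (sl_hasT k n)

/-- Example: `SL(n, ℝ)`, `n ≥ 3`. -/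
theorem example_high_real (n : ℕ) [MeasurableSpace SL(n + 3, ℝ)] [BorelSpace SL(n + 3, ℝ)] :
    IsHigh SL(n + 3, ℝ) :=
  sl_isHigh_of ℝ n (sl_hasT_real n)

end Pool.Agent.Variants.MP_60cbcc_al.StuckZimmerV2
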